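import Pool.Agent.helper23.TH.All

/-!
MP_26dbae_co: `f_2(n, θ_{l,p}) = Θ(n^{2 - 2/l})` for every `l ≥ 3` and all large `p`.

Lower bound: on ordered pairs of vertices, `(x, y)` is joined to `(x', y')` if the four vertices are distinct and
`χ x x' = χ y y'`; in an almost regular subgraph the closed walks of length `2 l` two of whose pairs share a
vertex are few (log-convexity of the numbers of closed walks), and the weak form of Turan's theorem gives `p` mutually good
walks with common ends. Upper bound: vertices `F_q^e`, colours given by `2 v` polynomials in symmetric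
functions of the two points, with coefficients satisfying no small relation over `F_3`; boundedness of the
number of solutions follows from an ultraproduct and a transcendence degree count.
-/

set_option autoImplicit false

namespace Pool.Agent.Results.MP_26dbae_co.ThetaExponents

open Pool.Agent.helper23.TH

/-- For every `l ≥ 3` the theta graphs `θ_{l,p}` are bipartite and `f_2(n, θ_{l,p}) = Θ(n^{2 - 2/l})` for all
large `p`; so there is a bipartite graph on some `Fin k` with this exponent. -/
theorem result : ∀ l : ℕ, 3 ≤ l →
    (∀ p : ℕ, (theta l p).Colorable 2) ∧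
    (∃ p₀ : ℕ, ∀ p : ℕ, p₀ ≤ p → Law (theta l p) (2 - 2 / (l : ℝ))) ∧
    ∃ k : ℕ, ∃ H : SimpleGraph (Fin k), H.Colorable 2 ∧ Law H (2 - 2 / (l : ℝ)) :=
  all_Main.1

end Pool.Agent.Results.MP_26dbae_co.ThetaExponents
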